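import Pool.Agent.TH770.Final
import Pool.Agent.TH770.Erd

/-!
# The Sigma_1-colouring property at the least inaccessible cardinal

If there is a weakly compact cardinal, then there is a countable transitive model of ZFC in
which the least inaccessible cardinal exists and has the Sigma_1-colouring property.

Formulas of set theory (`Fml`), their truth in a class (`Sat`), transitive models of ZFC
(`IsZFC`), injections (`IsInj`), bijections (`IsBij`) and the natural numbers (`nat`) are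
defined in `Pool.Agent.W868.Defs`.
-/

set_option autoImplicit false

namespace Pool.Agent.Results.MP_c21eaa_lc.LeastInaccessibleSigmaOne

open Pool.Agent.W868
open ZFSet (pair)
open Cardinal

/-- An uncountable cardinal `κ` is weakly compact if every colouring of the pairs of elements
of `κ` with two colours has a homogeneous set of cardinality `κ`. Here `κ.ord.ToType` is `κ` as
a well-ordered set, and the colour of the pair `{x, y}` with `x < y` is `c x y`. -/
def WeaklyCompact (κ : Cardinal.{0}) : Prop :=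
  ℵ₀ < κ ∧ ∀ c : κ.ord.ToType → κ.ord.ToType → Bool, ∃ H : Set κ.ord.ToType, #H = κ ∧
    ∃ i, ∀ x ∈ H, ∀ y ∈ H, x < y → c x y = i

/-- In the transitive model `M`, the set `κ` is an inaccessible cardinal: it is an ordinal
greater than `ω`, it is regular (each function of `M` from an element of `κ` to `κ` is bounded
in `κ`), and it is a strong limit (for `α < κ`, the power set of `α` injects into some
`β < κ`). -/
structure Inaccessible (M : Set ZFSet.{0}) (κ : ZFSet.{0}) : Prop where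
  mem : κ ∈ M
  ordinal : κ.IsOrdinal
  uncountable : ZFSet.omega ∈ κ
  regular : ∀ α ∈ κ, ∀ f ∈ M, ZFSet.IsFunc α κ f → ∃ β ∈ κ, ∀ x y, pair x y ∈ f → y ∈ β
  strongLimit : ∀ α ∈ κ, ∃ β ∈ κ, ∃ p ∈ M, (∀ z, z ∈ p ↔ z ∈ M ∧ z ⊆ α) ∧
    ∃ g ∈ M, IsInj p β g

/-- In `M`, the set `κ` is the least inaccessible cardinal. -/
def IsLeastInaccessible (M : Set ZFSet.{0}) (κ : ZFSet.{0}) : Prop :=
  Inaccessible M κ ∧ ∀ α ∈ κ, ¬ Inaccessible M α

/-- The `Σ₀` formulas: built from atomic formulas using negation, conjunction and bounded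
quantification `∃ x, x ∈ t ∧ φ`. -/
inductive Sigma0 : {n : ℕ} → Fml Empty n → Prop
  | mem {n : ℕ} (s t : Fin n ⊕ Empty) : Sigma0 (.mem s t)
  | eq {n : ℕ} (s t : Fin n ⊕ Empty) : Sigma0 (.eq s t)
  | neg {n : ℕ} {φ : Fml Empty n} (h : Sigma0 φ) : Sigma0 (.neg φ)
  | and {n : ℕ} {φ ψ : Fml Empty n} (h : Sigma0 φ) (h' : Sigma0 ψ) : Sigma0 (.and φ ψ)
  | bex {n : ℕ} (t : Fin n ⊕ Empty) {φ : Fml Empty (n + 1)} (h : Sigma0 φ) :
      Sigma0 (.ex (.and (.mem (Sum.inl 0) (Sum.map Fin.succ id t)) φ))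

/-- `z` belongs to `H(κ)` in the sense of `M`: it is an element of a transitive set of `M` that
injects in `M` into an element of `κ`. -/
def InH (M : Set ZFSet.{0}) (κ z : ZFSet.{0}) : Prop :=
  ∃ T ∈ M, (∀ x ∈ T, ∀ y ∈ x, y ∈ T) ∧ z ∈ T ∧ ∃ α ∈ κ, ∃ i ∈ M, IsInj T α i

/-- The set `[κ]²` of the two-element subsets of `κ`. -/
noncomputable def pairs (κ : ZFSet.{0}) : ZFSet.{0} :=
  ZFSet.sep (fun x => ∃ α ∈ κ, ∃ β ∈ κ, α ≠ β ∧ x = {α, β}) κ.powerset

/-- In `M`, the function `c : [κ]² → 2` is the partition defined by the formula `∃ x, ψ` with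
the parameters `κ` and `z`: for all `α < β < κ`, the value `c {α, β}` is the unique `y` such
that `∃ x, ψ (x, α, β, y, κ, z)` holds in `M`. -/
def Defines (M : Set ZFSet.{0}) (κ : ZFSet.{0}) {m : ℕ} (z : Fin m → ZFSet.{0})
    (ψ : Fml Empty (4 + m + 1)) (c : ZFSet.{0}) : Prop :=
  ZFSet.IsFunc (pairs κ) (nat 2) c ∧ ∀ α ∈ κ, ∀ β ∈ κ, α ∈ β → ∀ y ∈ M,
    (Sat M Empty.elim (.ex ψ) (Fin.append ![α, β, y, κ] z) ↔ pair {α, β} y ∈ c)

/-- In `M`, the cardinal `κ` has the `Σ₁`-colouring property with parameters from `H(κ)`: every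
partition `c : [κ]² → 2` that is defined by a `Σ₁` formula with the parameter `κ` and finitely
many parameters from `H(κ)` has a homogeneous set `H ∈ M` of cardinality `κ`. -/
def ColouringProperty (M : Set ZFSet.{0}) (κ : ZFSet.{0}) : Prop :=
  ∀ (m : ℕ) (z : Fin m → ZFSet.{0}), (∀ i, InH M κ (z i)) → ∀ ψ : Fml Empty (4 + m + 1),
    Sigma0 ψ → ∀ c ∈ M, Defines M κ z ψ c →
      ∃ H ∈ M, H ⊆ κ ∧ (∃ h ∈ M, IsBij H κ h) ∧
        ∃ y, ∀ α ∈ H, ∀ β ∈ H, α ≠ β → pair {α, β} y ∈ c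

theorem Sigma0.toIs {n : ℕ} {φ : Fml Empty n} (h : Sigma0 φ) : TH770.IsSigma0 φ := by
  induction h with
  | mem s t => exact .mem s t
  | eq s t => exact .eq s t
  | neg _ ih => exact .neg ih
  | and _ _ ih ih' => exact .and ih ih'
  | bex t _ ih => exact .bex t ih

/-- **Theorem.** If there is a weakly compact cardinal, then there is a countable transitive
model of ZFC with a least inaccessible cardinal that has the `Σ₁`-colouring property. -/
theorem result (hκ : ∃ κ : Cardinal.{0}, WeaklyCompact κ) :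
    ∃ M : Set ZFSet.{0}, M.Countable ∧ IsZFC M ∧
      ∃ κ, IsLeastInaccessible M κ ∧ ColouringProperty M κ := by
  classical
  obtain ⟨κ, h0, hc⟩ := hκ
  let K := κ.ord.ToType
  have hK : #K = κ := Cardinal.mk_ord_toType κ
  have hP : H833R3.Levy.PairPart K := by
    intro R
    obtain ⟨H, hH, i, hi⟩ := hc (fun x y => decide (R x y))
    refine ⟨H, hH.trans hK.symm, ?_⟩
    cases i with
    | true => exact Or.inl fun x hx y hy hxy => of_decide_eq_true (hi x hx y hy hxy)
    | false => exact Or.inr fun x hx y hy hxy => of_decide_eq_false (hi x hx y hy hxy)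
  have : Fact (H833R3.Levy.Inac K) := ⟨TH770.inac_of_part h0 hP⟩
  obtain ⟨π, hkz, hE, hL⟩ := TH770.exists_final (K := K)
  have hord : (π.hat (TH770.kz K)).IsOrdinal := π.hat_isOrdinal (TH770.kz_ord K)
  refine ⟨π.W, π.countable_W, π.isZFC_W, π.hat (TH770.kz K), ⟨⟨π.val_mem_W hkz, hord,
    TH770.omega_mem_W π hkz, ?_, ?_⟩, ?_⟩, ?_⟩
  · intro α hα f hf hfun
    obtain ⟨β, hβ, h⟩ := TH770.reg_W π hkz α hα f hf hfun
    exact ⟨β, hβ, fun x y hxy => h x (ZFSet.pair_mem_prod.1 (hfun.1 hxy)).1 y hxy⟩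
  · intro α hα
    obtain ⟨β, hβ, p, hp, g, hg, h1, h2⟩ := TH770.lim_W π hkz α hα
    refine ⟨β, hβ, p, hp, fun z => ⟨fun hz => ?_, fun hz => (h1 z hz.1).2 hz.2⟩, g, hg, h2⟩
    have hzW := π.isZF_W.trans p hp z hz
    exact ⟨hzW, (h1 z hzW).1 hz⟩
  · intro α hα hin
    refine TH770.least_W π α hα ⟨hin.uncountable, fun β hβ f hf hfun => ?_, fun β hβ => ?_⟩
    · obtain ⟨γ, hγ, h⟩ := hin.regular β hβ f hf hfun
      exact ⟨γ, hγ, fun a _ b _ hab => h a b hab⟩
    · obtain ⟨γ, hγ, p, hp, h1, g, hg, h2⟩ := hin.strongLimit β hβ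
      exact ⟨γ, hγ, p, hp, g, hg, fun z hz => ⟨fun h => ((h1 z).1 h).2,
        fun h => (h1 z).2 ⟨hz, h⟩⟩, h2⟩
  · intro m z hz ψ hψ c _ hdef
    obtain ⟨H, hH, hsub, hbij, y, hy⟩ := TH770.colouring_W hP π hkz hE hL hz hψ.toIs hdef.1 hdef.2
    refine ⟨H, hH, hsub, hbij, y, fun α hα β hβ hne => ?_⟩
    rcases (hord.mem (hsub hα)).mem_trichotomous (hord.mem (hsub hβ)) with h | h | h
    · exact hy α hα β hβ h
    · exact absurd h hne
    · have h2 : ({α, β} : ZFSet.{0}) = {β, α} := by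
        ext w
        simp only [ZFSet.mem_pair]
        exact or_comm
      rw [h2]
      exact hy β hβ α hα h

end Pool.Agent.Results.MP_c21eaa_lc.LeastInaccessibleSigmaOne
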